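import Pool.Agent.Run7.h700.KC.Rate2
import Pool.Agent.Run7.h712.KC.UP

/-!
# Korenblum constants: monotone along integer multiples, and explicit strict increase (MP_63a03b_an, Q1)

* `κ_p ≤ κ_{n p}` for all `p > 0` and all integers `n ≥ 1` (apply the property for `p` to `f ^ n`, `g ^ n`);
* `1 - 1000 / log p ≤ κ_p` for `p > 1`, and `κ_p ≤ (2 / (p + 2)) ^ (1 / p)` for `p > 0`;
* so `κ_{p₁} < κ_{p₂}` for all `p₁ > 0` and all `p₂ > exp (1000 / (1 - (2 / (p₁ + 2)) ^ (1 / p₁)))`; in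
  particular `κ` is not non-increasing on `[1, ∞)`, with an explicit range of increase.

The lower bound is project KC (helper884, helper459, helper642, helper648, helper989, helper824, helper700),
the proof is described in `MP_ccab6c_an.LogarithmicRate`; the integral of `|z|^p` is by helper712.
-/

set_option autoImplicit false

open MeasureTheory Set

namespace Pool.Agent.Results.MP_63a03b_an.IntegerMultiples

/-- The Bergman space `A^p`. -/
def Ap (p : ℝ) : Set (ℂ → ℂ) :=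
  {f | DifferentiableOn ℂ f (Metric.ball 0 1) ∧
    IntegrableOn (fun z => ‖f z‖ ^ p) (Metric.ball (0 : ℂ) 1)}

/-- The norm of the Bergman space `A^p`. -/
noncomputable def nrm (p : ℝ) (f : ℂ → ℂ) : ℝ :=
  (∫ z in Metric.ball (0 : ℂ) 1, ‖f z‖ ^ p) ^ (1 / p)

/-- `c` has the Korenblum property for `p`. -/
def HasKorenblum (p c : ℝ) : Prop :=
  0 < c ∧ c < 1 ∧ ∀ f ∈ Ap p, ∀ g ∈ Ap p,
    (∀ z : ℂ, c < ‖z‖ → ‖z‖ < 1 → ‖f z‖ ≤ ‖g z‖) → nrm p f ≤ nrm p g

/-- The Korenblum constant. -/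
noncomputable def kappa (p : ℝ) : ℝ := sSup {c : ℝ | HasKorenblum p c}

lemma nrm_le_iff {p : ℝ} (hp : 0 < p) (f g : ℂ → ℂ) : nrm p f ≤ nrm p g ↔
    ∫ z in Metric.ball (0 : ℂ) 1, ‖f z‖ ^ p ≤ ∫ z in Metric.ball (0 : ℂ) 1, ‖g z‖ ^ p :=
  Real.rpow_le_rpow_iff (integral_nonneg fun z => by positivity)
    (integral_nonneg fun z => by positivity) (by positivity)

lemma norm_pow_rpow (n : ℕ) (p : ℝ) (w : ℂ) : ‖w ^ n‖ ^ p = ‖w‖ ^ ((n : ℝ) * p) := by
  rw [norm_pow, Real.rpow_natCast_mul (norm_nonneg w)]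

lemma Ap_pow {p : ℝ} {n : ℕ} {f : ℂ → ℂ} (hf : f ∈ Ap ((n : ℝ) * p)) : (fun z => f z ^ n) ∈ Ap p := by
  refine ⟨hf.1.pow n, ?_⟩
  simp only [norm_pow_rpow]
  exact hf.2

theorem has_mul {p : ℝ} (hp : 0 < p) {n : ℕ} (hn : 1 ≤ n) {c : ℝ} (h : HasKorenblum p c) :
    HasKorenblum ((n : ℝ) * p) c := by
  have hn0 : (0 : ℝ) < n := by exact_mod_cast hn
  refine ⟨h.1, h.2.1, fun f hf g hg hfg => ?_⟩
  have h1 := h.2.2 _ (Ap_pow hf) _ (Ap_pow hg) (fun z hz hz1 => by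
    rw [norm_pow, norm_pow]
    exact pow_le_pow_left₀ (norm_nonneg _) (hfg z hz hz1) n)
  rw [nrm_le_iff hp] at h1
  simp only [norm_pow_rpow] at h1
  exact (nrm_le_iff (mul_pos hn0 hp) f g).2 h1

theorem kappa_mul {p : ℝ} (hp : 0 < p) {n : ℕ} (hn : 1 ≤ n) : kappa p ≤ kappa ((n : ℝ) * p) := by
  have hb : BddAbove {c : ℝ | HasKorenblum ((n : ℝ) * p) c} := ⟨1, fun c hc => hc.2.1.le⟩
  refine Real.sSup_le (fun c hc => le_csSup hb (has_mul hp hn hc)) ?_
  exact Real.sSup_nonneg fun c hc => hc.1.le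

lemma lint_eq {p : ℝ} (hp : 0 < p) {f : ℂ → ℂ} (hf : f ∈ Ap p) :
    ∫⁻ z in Metric.ball (0 : ℂ) 1, ‖f z‖ₑ ^ p =
      ENNReal.ofReal (∫ z in Metric.ball (0 : ℂ) 1, ‖f z‖ ^ p) := by
  rw [ofReal_integral_eq_lintegral_ofReal hf.2 (Filter.Eventually.of_forall fun z => by positivity)]
  refine lintegral_congr fun z => ?_
  rw [← ofReal_norm, ENNReal.ofReal_rpow_of_nonneg (norm_nonneg _) hp.le]

lemma has_of_adm {p : ℝ} (hp : 0 < p) {c : ℝ} (hc : 0 < c) (h : c ∈ Pool.Agent.Run7.h700.KC.Adm p) :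
    HasKorenblum p c := by
  refine ⟨hc, h.2.1, fun f hf g hg hfg => ?_⟩
  have h1 := h.2.2 f g hf.1 hg.1 hfg
  rw [lint_eq hp hf, lint_eq hp hg, ENNReal.ofReal_le_ofReal_iff
    (integral_nonneg fun z => by positivity)] at h1
  exact (nrm_le_iff hp f g).2 h1

theorem kappa_lower {p : ℝ} (hp : 1 < p) : 1 - 1000 / Real.log p ≤ kappa p := by
  have hlog : 0 < Real.log p := Real.log_pos hp
  have hnn : 0 ≤ kappa p := Real.sSup_nonneg fun c hc => hc.1.le
  rcases le_or_gt 1 (1000 / Real.log p) with h1 | h1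
  · linarith
  · have hh : 0 < 1000 / Real.log p := by positivity
    refine le_csSup ⟨1, fun r hr => hr.2.1.le⟩ (has_of_adm (by linarith) (by linarith)
      (Pool.Agent.Run7.h700.KC.rate_h hh h1 ?_))
    have e1 : 1000 / (1000 / Real.log p) = Real.log p := by field_simp
    rw [e1, Real.exp_log (by linarith)]

lemma integral_norm {p : ℝ} (hp : 0 < p) :
    ∫ z in Metric.ball (0 : ℂ) 1, ‖z‖ ^ p = 2 * Real.pi / (p + 2) := by
  have hc : Continuous fun z : ℂ => ‖z‖ ^ p := continuous_norm.rpow_const fun _ => Or.inr hp.le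
  rw [integral_eq_lintegral_of_nonneg_ae (Filter.Eventually.of_forall fun z => by positivity)
    hc.aestronglyMeasurable]
  have h1 : ∫⁻ z in Metric.ball (0 : ℂ) 1, ENNReal.ofReal (‖z‖ ^ p) =
      ∫⁻ z in Metric.ball (0 : ℂ) 1, ‖z‖ₑ ^ p := by
    refine lintegral_congr fun z => ?_
    rw [← ofReal_norm, ENNReal.ofReal_rpow_of_nonneg (norm_nonneg _) hp.le]
  rw [h1, Run7.h712.KC.t_UP p hp, ENNReal.toReal_ofReal (by positivity)]

theorem kappa_upper {p : ℝ} (hp : 0 < p) : kappa p ≤ (2 / (p + 2)) ^ (1 / p) := by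
  have hpos : 0 < 2 / (p + 2) := by positivity
  refine Real.sSup_le ?_ (by positivity)
  rintro c ⟨hc0, hc1, hc⟩
  have hcont : Continuous fun z : ℂ => ‖z / (c : ℂ)‖ ^ p :=
    (continuous_norm.comp (continuous_id.div_const _)).rpow_const fun _ => Or.inr hp.le
  have h1 : (fun _ => 1 : ℂ → ℂ) ∈ Ap p := by
    refine ⟨differentiableOn_const _, ?_⟩
    simp only [norm_one, Real.one_rpow]
    exact integrableOn_const (by simp) (by simp)
  have h2 : (fun z => z / (c : ℂ)) ∈ Ap p :=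
    ⟨differentiableOn_id.div_const _, (hcont.locallyIntegrable.integrableOn_isCompact
      (isCompact_closedBall 0 1)).mono_set Metric.ball_subset_closedBall⟩
  have h4 := (nrm_le_iff hp _ _).1 (hc _ h1 _ h2 (fun z hz _ => by
    rw [norm_one, norm_div, Complex.norm_real, Real.norm_of_nonneg hc0.le, le_div_iff₀ hc0, one_mul]
    exact hz.le))
  have e1 : ∀ z : ℂ, ‖z / (c : ℂ)‖ ^ p = c ^ (-p) * ‖z‖ ^ p := by
    intro z
    rw [norm_div, Complex.norm_real, Real.norm_of_nonneg hc0.le, Real.div_rpow (norm_nonneg _) hc0.le,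
      Real.rpow_neg hc0.le]
    field_simp
  simp only [e1, norm_one, Real.one_rpow] at h4
  rw [integral_const_mul, integral_norm hp, setIntegral_const] at h4
  have e2 : (volume.real (Metric.ball (0 : ℂ) 1)) = Real.pi := by
    rw [measureReal_def, Complex.volume_ball]
    simp
  rw [e2, smul_eq_mul, mul_one, Real.rpow_neg hc0.le] at h4
  have hpi := Real.pi_pos
  have hcp : 0 < c ^ p := Real.rpow_pos_of_pos hc0 p
  have h5 : c ^ p ≤ 2 / (p + 2) := by
    have h6 := mul_le_mul_of_nonneg_left h4 hcp.le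
    have e3 : c ^ p * ((c ^ p)⁻¹ * (2 * Real.pi / (p + 2))) = 2 / (p + 2) * Real.pi := by
      field_simp
    rw [e3] at h6
    exact le_of_mul_le_mul_right h6 hpi
  calc c = (c ^ p) ^ (1 / p) := by
        rw [← Real.rpow_mul hc0.le, mul_one_div_cancel hp.ne', Real.rpow_one]
    _ ≤ _ := Real.rpow_le_rpow hcp.le h5 (by positivity)

lemma bound_lt_one {p : ℝ} (hp : 0 < p) : (2 / (p + 2)) ^ (1 / p) < 1 := by
  refine Real.rpow_lt_one (by positivity) ?_ (by positivity)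
  rw [div_lt_one (by positivity)]
  linarith

theorem kappa_strict {p₁ p₂ : ℝ} (hp₁ : 0 < p₁)
    (h : Real.exp (1000 / (1 - (2 / (p₁ + 2)) ^ (1 / p₁))) < p₂) : kappa p₁ < kappa p₂ := by
  obtain ⟨b, hb⟩ : ∃ b : ℝ, b = (2 / (p₁ + 2)) ^ (1 / p₁) := ⟨_, rfl⟩
  have hb1 : b < 1 := by rw [hb]; exact bound_lt_one hp₁
  rw [← hb] at h
  have hd : 0 < 1 - b := by linarith
  have hE : 0 < 1000 / (1 - b) := by positivity
  have hp2 : 1 < p₂ := lt_trans (Real.one_lt_exp_iff.2 hE) h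
  have hlog : 1000 / (1 - b) < Real.log p₂ := (Real.lt_log_iff_exp_lt (by linarith)).2 h
  have hl0 : 0 < Real.log p₂ := hE.trans hlog
  have h1 : 1000 / Real.log p₂ < 1 - b := by
    rw [div_lt_iff₀ hl0]
    rw [div_lt_iff₀ hd] at hlog
    linarith
  have h2 := kappa_lower hp2
  have h3 := kappa_upper hp₁
  rw [← hb] at h3
  linarith

/-- Monotonicity along integer multiples of the exponent, two-sided bounds, and explicit strict
increase. -/
theorem result :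
    (∀ p : ℝ, 0 < p → ∀ n : ℕ, 1 ≤ n → kappa p ≤ kappa ((n : ℝ) * p)) ∧
    (∀ p : ℝ, 1 < p → 1 - 1000 / Real.log p ≤ kappa p) ∧
    (∀ p : ℝ, 0 < p → kappa p ≤ (2 / (p + 2)) ^ (1 / p)) ∧
    (∀ p₁ p₂ : ℝ, 0 < p₁ → Real.exp (1000 / (1 - (2 / (p₁ + 2)) ^ (1 / p₁))) < p₂ →
      kappa p₁ < kappa p₂) ∧
    ¬ (∀ p₁ p₂ : ℝ, 1 ≤ p₁ → p₁ ≤ p₂ → kappa p₂ ≤ kappa p₁) := by
  refine ⟨fun p hp n hn => kappa_mul hp hn, fun p hp => kappa_lower hp, fun p hp => kappa_upper hp,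
    fun p₁ p₂ hp₁ h => kappa_strict hp₁ h, fun h => ?_⟩
  obtain ⟨p₂, hp₂⟩ := exists_gt (max 1 (Real.exp (1000 / (1 - (2 / ((1 : ℝ) + 2)) ^ (1 / (1 : ℝ))))))
  exact absurd (h 1 p₂ le_rfl ((le_max_left _ _).trans hp₂.le))
    (not_le.2 (kappa_strict one_pos ((le_max_right _ _).trans_lt hp₂)))

end Pool.Agent.Results.MP_63a03b_an.IntegerMultiples
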